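import Pool.Agent.J4H48.HL.Few

/-!
The number of the constants `γ` in an interval for which the recursion
`α z (n+1) + β z (n-1) = P (z n) + γ` has a periodic solution in integers.
-/

set_option autoImplicit false

open Finset

namespace Pool.Agent.J4H48.HL

/-- a nonempty finite set of integers that contains for each `s` some `u`, `v` with
`α u + β v = P(s) + γ` -/
def Inv (P : Polynomial ℤ) (α β γ : ℤ) (S : Finset ℤ) : Prop :=
  S.Nonempty ∧ ∀ s ∈ S, ∃ u ∈ S, ∃ v ∈ S, α * u + β * v = P.eval s + γ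

/-- the diameter -/
def diam (S : Finset ℤ) : ℕ := (S ×ˢ S).sup fun p => (p.2 - p.1).toNat

theorem le_diam {S : Finset ℤ} {s t : ℤ} (hs : s ∈ S) (ht : t ∈ S) : t - s ≤ diam S := by
  have h : (t - s).toNat ≤ diam S :=
    Finset.le_sup (f := fun p : ℤ × ℤ => (p.2 - p.1).toNat) (b := (s, t)) (mem_product.2 ⟨hs, ht⟩)
  omega

theorem abs_le_diam {S : Finset ℤ} {s t : ℤ} (hs : s ∈ S) (ht : t ∈ S) : |t - s| ≤ diam S := by
  rw [abs_le]
  have h1 := le_diam hs ht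
  have h2 := le_diam ht hs
  constructor <;> linarith

theorem exists_diam {S : Finset ℤ} (hS : S.Nonempty) : ∃ s ∈ S, ∃ t ∈ S, s + diam S ≤ t := by
  obtain ⟨p, hp, h⟩ := Finset.exists_mem_eq_sup (S ×ˢ S) (hS.product hS)
    (fun p : ℤ × ℤ => (p.2 - p.1).toNat)
  have h' : diam S = (p.2 - p.1).toNat := h
  rw [mem_product] at hp
  by_cases h0 : 0 ≤ p.2 - p.1
  · exact ⟨p.1, hp.1, p.2, hp.2, by omega⟩
  · exact ⟨p.1, hp.1, p.1, hp.1, by omega⟩

/-- `P - (α + β) X` -/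
noncomputable def GG (P : Polynomial ℤ) (α β : ℤ) : Polynomial ℤ :=
  P - Polynomial.C (α + β) * Polynomial.X

theorem GG_natDegree (P : Polynomial ℤ) (α β : ℤ) (d : ℕ) (hd : 2 ≤ d) (hP : P.natDegree = d) :
    (GG P α β).natDegree = d := by
  unfold GG
  rw [Polynomial.natDegree_sub_eq_left_of_natDegree_lt, hP]
  rw [hP]
  refine lt_of_le_of_lt (Polynomial.natDegree_C_mul_le _ _) ?_
  rw [Polynomial.natDegree_X]
  omega

theorem GG_eval (P : Polynomial ℤ) (α β s : ℤ) :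
    (GG P α β).eval s = P.eval s - (α + β) * s := by
  unfold GG
  simp

theorem near {P : Polynomial ℤ} {α β γ : ℤ} {S : Finset ℤ} (h : Inv P α β γ S) {s : ℤ}
    (hs : s ∈ S) :
    |(GG P α β).eval s + γ| ≤ ((α.natAbs + β.natAbs) * diam S : ℕ) := by
  obtain ⟨u, hu, v, hv, huv⟩ := h.2 s hs
  rw [GG_eval]
  have e : P.eval s - (α + β) * s + γ = α * (u - s) + β * (v - s) := by
    linear_combination -huv
  rw [e]
  have h1 := abs_le_diam hs hu
  have h2 := abs_le_diam hs hv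
  refine (abs_add_le _ _).trans ?_
  rw [abs_mul, abs_mul]
  push_cast
  rw [add_mul]
  exact add_le_add (mul_le_mul_of_nonneg_left h1 (abs_nonneg α))
    (mul_le_mul_of_nonneg_left h2 (abs_nonneg β))

/-- the constant -/
def qq (d A : ℕ) : ℕ := d * (2 * (d + 1) * (6 * A + 1) + 1)

/-- one cluster -/
theorem cluster (P : Polynomial ℤ) (d : ℕ) (hd : 2 ≤ d) (hP : P.natDegree = d) (α β : ℤ)
    (lam : ℕ) (hlam : 1 ≤ lam) (V : Finset ℤ) (T : ℤ → Finset ℤ)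
    (hT : ∀ γ ∈ V, Inv P α β γ (T γ)) (hdiam : ∀ γ ∈ V, diam (T γ) ≤ 2 * lam)
    (γ₀ : ℤ) (hγ₀ : γ₀ ∈ V) (hγ₀d : lam ≤ diam (T γ₀))
    (hclose : ∀ γ ∈ V, |γ₀ - γ| ≤ ((4 * (α.natAbs + β.natAbs) + 1) * lam : ℕ)) :
    V.card ≤ qq d (α.natAbs + β.natAbs) ^ 3 := by
  classical
  obtain ⟨A, hA⟩ : ∃ A, A = α.natAbs + β.natAbs := ⟨_, rfl⟩
  rw [← hA] at hclose ⊢
  have hU : (V.biUnion T).card ≤ qq d A := by
    apply few_near (GG P α β) d hd (GG_natDegree P α β d hd hP) γ₀ lam (6 * A + 1) hlam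
    · intro t ht
      rw [mem_biUnion] at ht
      obtain ⟨γ, hγ, htγ⟩ := ht
      have h1 := near (hT γ hγ) htγ
      rw [← hA] at h1
      have h2 := hclose γ hγ
      have h3 := hdiam γ hγ
      have e : (GG P α β).eval t + γ₀ = ((GG P α β).eval t + γ) + (γ₀ - γ) := by ring
      rw [e]
      refine (abs_add_le _ _).trans ((add_le_add h1 h2).trans ?_)
      have h4 : A * diam (T γ) + (4 * A + 1) * lam ≤ (6 * A + 1) * lam := by
        calc A * diam (T γ) + (4 * A + 1) * lam ≤ A * (2 * lam) + (4 * A + 1) * lam :=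
              Nat.add_le_add_right (Nat.mul_le_mul_left A h3) _
          _ = (6 * A + 1) * lam := by ring
      exact_mod_cast h4
    · obtain ⟨s, hs, t, ht, hst⟩ := exists_diam (hT γ₀ hγ₀).1
      refine ⟨s, mem_biUnion.2 ⟨γ₀, hγ₀, hs⟩, t, mem_biUnion.2 ⟨γ₀, hγ₀, ht⟩, ?_⟩
      have : (lam : ℤ) ≤ diam (T γ₀) := by exact_mod_cast hγ₀d
      linarith
  have hsub : V ⊆ (V.biUnion T ×ˢ (V.biUnion T ×ˢ V.biUnion T)).image
      (fun p => α * p.1 + β * p.2.1 - P.eval p.2.2) := by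
    intro γ hγ
    obtain ⟨s, hs⟩ := (hT γ hγ).1
    obtain ⟨u, hu, v, hv, huv⟩ := (hT γ hγ).2 s hs
    rw [mem_image]
    refine ⟨(u, (v, s)), ?_, ?_⟩
    · simp only [mem_product]
      exact ⟨mem_biUnion.2 ⟨γ, hγ, hu⟩, mem_biUnion.2 ⟨γ, hγ, hv⟩, mem_biUnion.2 ⟨γ, hγ, hs⟩⟩
    · show α * u + β * v - P.eval s = γ
      linarith
  calc V.card ≤ _ := card_le_card hsub
    _ ≤ (V.biUnion T ×ˢ (V.biUnion T ×ˢ V.biUnion T)).card := card_image_le
    _ = (V.biUnion T).card * ((V.biUnion T).card * (V.biUnion T).card) := by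
        rw [card_product, card_product]
    _ ≤ qq d A * (qq d A * qq d A) := Nat.mul_le_mul hU (Nat.mul_le_mul hU hU)
    _ = qq d A ^ 3 := by ring

/-- one scale -/
theorem scale (P : Polynomial ℤ) (d : ℕ) (hd : 2 ≤ d) (hP : P.natDegree = d) (α β : ℤ)
    (lam : ℕ) (hlam : 1 ≤ lam) (Γ : ℤ) (M : ℕ) (hM : lam ≤ M) (V : Finset ℤ) (T : ℤ → Finset ℤ)
    (hV : ∀ γ ∈ V, Γ ≤ γ ∧ γ < Γ + M)
    (hT : ∀ γ ∈ V, Inv P α β γ (T γ)) (hdiam : ∀ γ ∈ V, lam ≤ diam (T γ) ∧ diam (T γ) ≤ 2 * lam) :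
    (V.card : ℝ) ≤ (qq d (α.natAbs + β.natAbs) : ℝ) ^ 3 *
      (2 * (d + 1) ^ 2 * ((4 * (α.natAbs + β.natAbs : ℕ) + 1) * (M : ℝ) ^ (1 / (d : ℝ)))) := by
  classical
  obtain ⟨A, hA⟩ : ∃ A, A = α.natAbs + β.natAbs := ⟨_, rfl⟩
  rw [← hA]
  have hch : ∀ γ : ℤ, ∃ s : ℤ, γ ∈ V → s ∈ T γ := by
    intro γ
    by_cases h : γ ∈ V
    · obtain ⟨s, hs⟩ := (hT γ h).1
      exact ⟨s, fun _ => hs⟩
    · exact ⟨0, fun h' => absurd h' h⟩
  choose s hs using hch
  let t : ℤ → ℤ := fun γ => (-GG P α β).eval (s γ)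
  have ht : ∀ γ ∈ V, |γ - t γ| ≤ (2 * A * lam : ℕ) := by
    intro γ hγ
    have h1 := near (hT γ hγ) (hs γ hγ)
    rw [← hA] at h1
    have e : γ - t γ = (GG P α β).eval (s γ) + γ := by
      show γ - (-GG P α β).eval (s γ) = _
      rw [Polynomial.eval_neg]
      ring
    rw [e]
    refine h1.trans ?_
    have h2 : A * diam (T γ) ≤ 2 * A * lam := by
      calc A * diam (T γ) ≤ A * (2 * lam) := Nat.mul_le_mul_left A (hdiam γ hγ).2
        _ = 2 * A * lam := by ring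
    exact_mod_cast h2
  have hM1 : 1 ≤ M := hlam.trans hM
  have himg : ((V.image t).card : ℝ) ≤ 2 * (d + 1) ^ 2 *
      ((4 * (A : ℕ) + 1) * (M : ℝ) ^ (1 / (d : ℝ))) := by
    have h1 := Pool.Agent.J4H48.SI.few_values (-GG P α β) d (by omega)
      (Or.inl (by rw [Polynomial.natDegree_neg, GG_natDegree P α β d hd hP]))
      (Γ - (2 * A * lam : ℕ)) (M + 4 * A * lam) (by omega) (V.image t) (by
        intro x hx
        rw [mem_image] at hx
        obtain ⟨γ, hγ, rfl⟩ := hx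
        have h2 := ht γ hγ
        have h3 := hV γ hγ
        rw [abs_le] at h2
        refine ⟨⟨by linarith [h2.2, h3.1], ?_⟩, s γ, rfl⟩
        push_cast at h2 ⊢
        linarith [h2.1, h3.2])
    refine h1.trans ?_
    have h4 : ((M + 4 * A * lam : ℕ) : ℝ) ≤ (4 * (A : ℝ) + 1) * M := by
      have : M + 4 * A * lam ≤ (4 * A + 1) * M := by
        calc M + 4 * A * lam ≤ M + 4 * A * M := Nat.add_le_add_left (Nat.mul_le_mul_left _ hM) _
          _ = (4 * A + 1) * M := by ring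
      exact_mod_cast this
    have hM0 : (0 : ℝ) ≤ M := Nat.cast_nonneg M
    have h5 : ((M + 4 * A * lam : ℕ) : ℝ) ^ (1 / (d : ℝ)) ≤
        (4 * (A : ℕ) + 1) * (M : ℝ) ^ (1 / (d : ℝ)) := by
      calc ((M + 4 * A * lam : ℕ) : ℝ) ^ (1 / (d : ℝ))
          ≤ ((4 * (A : ℝ) + 1) * M) ^ (1 / (d : ℝ)) :=
            Real.rpow_le_rpow (Nat.cast_nonneg _) h4 (by positivity)
        _ = (4 * (A : ℝ) + 1) ^ (1 / (d : ℝ)) * (M : ℝ) ^ (1 / (d : ℝ)) :=
            Real.mul_rpow (by positivity) hM0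
        _ ≤ (4 * (A : ℝ) + 1) * (M : ℝ) ^ (1 / (d : ℝ)) := by
            apply mul_le_mul_of_nonneg_right _ (Real.rpow_nonneg hM0 _)
            calc (4 * (A : ℝ) + 1) ^ (1 / (d : ℝ)) ≤ (4 * (A : ℝ) + 1) ^ (1 : ℝ) := by
                  apply Real.rpow_le_rpow_of_exponent_le
                  · have : (0 : ℝ) ≤ A := Nat.cast_nonneg A
                    linarith
                  · rw [div_le_one (by positivity)]
                    exact_mod_cast (by omega : 1 ≤ d)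
              _ = 4 * (A : ℝ) + 1 := Real.rpow_one _
    exact mul_le_mul_of_nonneg_left h5 (by positivity)
  have hfib : ∀ x ∈ V.image t, (V.filter fun γ => t γ = x).card ≤ qq d A ^ 3 := by
    intro x hx
    rw [mem_image] at hx
    obtain ⟨γ₀, hγ₀, hx0⟩ := hx
    have h := cluster P d hd hP α β lam hlam (V.filter fun γ => t γ = x) T
      (fun γ hγ => hT γ (mem_filter.1 hγ).1) (fun γ hγ => (hdiam γ (mem_filter.1 hγ).1).2)
      γ₀ (mem_filter.2 ⟨hγ₀, hx0⟩) (hdiam γ₀ hγ₀).1 (by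
        intro γ hγ
        rw [mem_filter] at hγ
        rw [← hA]
        have h1 := ht γ hγ.1
        have h2 := ht γ₀ hγ₀
        rw [hγ.2] at h1
        rw [hx0] at h2
        have e : γ₀ - γ = (γ₀ - x) - (γ - x) := by ring
        rw [e]
        refine (abs_sub _ _).trans ((add_le_add h2 h1).trans ?_)
        have h3 : 2 * A * lam + 2 * A * lam ≤ (4 * A + 1) * lam := by
          have : (4 * A + 1) * lam = 2 * A * lam + 2 * A * lam + lam := by ring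
          omega
        exact_mod_cast h3)
    rw [← hA] at h
    exact h
  have h1 := Finset.card_le_mul_card_image V (qq d A ^ 3) hfib
  have h2 : (V.card : ℝ) ≤ (qq d A : ℝ) ^ 3 * ((V.image t).card : ℝ) := by exact_mod_cast h1
  exact h2.trans (mul_le_mul_of_nonneg_left himg (by positivity))

theorem qq_le (d A : ℕ) : qq d A ≤ 12 * (d + 1) ^ 2 * (A + 1) := by
  unfold qq
  calc d * (2 * (d + 1) * (6 * A + 1) + 1) ≤ (d + 1) * (12 * (d + 1) * (A + 1)) := by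
        apply Nat.mul_le_mul (by omega)
        have : 12 * (d + 1) * (A + 1) = 2 * (d + 1) * (6 * A + 1) + 10 * (d + 1) := by ring
        omega
    _ = 12 * (d + 1) ^ 2 * (A + 1) := by ring

/-- the constants `γ` in `[Γ, Γ + M)` with a periodic solution -/
theorem core (P : Polynomial ℤ) (d : ℕ) (hd : 2 ≤ d) (hP : P.natDegree = d) (α β : ℤ)
    (Γ : ℤ) (M : ℕ) (hM : 1 ≤ M) (V : Finset ℤ)
    (hV : ∀ γ ∈ V, (Γ ≤ γ ∧ γ < Γ + M) ∧ ∃ S, Inv P α β γ S) :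
    (V.card : ℝ) ≤ 13824 * ((d : ℝ) + 1) ^ 8 * ((α.natAbs + β.natAbs : ℕ) + 1) ^ 4 *
      (1 + Nat.log 2 M) * (M : ℝ) ^ (1 / (d : ℝ)) := by
  classical
  obtain ⟨A, hA⟩ : ∃ A, A = α.natAbs + β.natAbs := ⟨_, rfl⟩
  rw [← hA]
  have hch : ∀ γ : ℤ, ∃ S : Finset ℤ, γ ∈ V → Inv P α β γ S := by
    intro γ
    by_cases h : γ ∈ V
    · obtain ⟨S, hS⟩ := (hV γ h).2
      exact ⟨S, fun _ => hS⟩
    · exact ⟨∅, fun h' => absurd h' h⟩
  choose T hT using hch
  have hM0 : (1 : ℝ) ≤ M := by exact_mod_cast hM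
  obtain ⟨μ, hμ⟩ : ∃ μ, μ = (M : ℝ) ^ (1 / (d : ℝ)) := ⟨_, rfl⟩
  have hμ1 : 1 ≤ μ := by
    rw [hμ]
    exact Real.one_le_rpow hM0 (by positivity)
  obtain ⟨Q, hQ⟩ : ∃ Q : ℝ, Q = (qq d A : ℝ) ^ 3 := ⟨_, rfl⟩
  have hQ0 : 0 ≤ Q := by rw [hQ]; positivity
  -- diameter zero
  have h0 : ((V.filter fun γ => diam (T γ) = 0).card : ℝ) ≤ 2 * ((d : ℝ) + 1) ^ 2 * μ := by
    rw [hμ]
    apply Pool.Agent.J4H48.SI.few_values (-GG P α β) d (by omega)
      (Or.inl (by rw [Polynomial.natDegree_neg, GG_natDegree P α β d hd hP])) Γ M hM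
    intro γ hγ
    rw [mem_filter] at hγ
    refine ⟨(hV γ hγ.1).1, ?_⟩
    obtain ⟨s, hs⟩ := (hT γ hγ.1).1
    refine ⟨s, ?_⟩
    have h1 := near (hT γ hγ.1) hs
    rw [hγ.2, mul_zero] at h1
    have h2 : (GG P α β).eval s + γ = 0 := abs_eq_zero.1 (le_antisymm (by exact_mod_cast h1) (abs_nonneg _))
    rw [Polynomial.eval_neg]
    linarith
  -- large diameter
  have h1 : ((V.filter fun γ => M ≤ diam (T γ)).card : ℝ) ≤ Q := by
    obtain ⟨W, hW⟩ : ∃ W, W = V.filter fun γ => M ≤ diam (T γ) := ⟨_, rfl⟩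
    rw [← hW]
    rcases W.eq_empty_or_nonempty with h | h
    · rw [h, card_empty]
      simpa using hQ0
    · obtain ⟨γ₀, hγ₀, hmax⟩ := W.exists_max_image (fun γ => diam (T γ)) h
      have hmem : ∀ γ ∈ W, γ ∈ V ∧ M ≤ diam (T γ) := fun γ hγ => by
        rw [hW, mem_filter] at hγ
        exact hγ
      have h2 := cluster P d hd hP α β (diam (T γ₀)) (hM.trans (hmem γ₀ hγ₀).2) W T
        (fun γ hγ => hT γ (hmem γ hγ).1) (fun γ hγ => by have := hmax γ hγ; omega) γ₀ hγ₀ le_rfl (by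
          intro γ hγ
          have h3 := (hV γ (hmem γ hγ).1).1
          have h4 := (hV γ₀ (hmem γ₀ hγ₀).1).1
          have h5 : |γ₀ - γ| ≤ (M : ℤ) := by
            rw [abs_le]
            constructor <;> linarith [h3.1, h3.2, h4.1, h4.2]
          refine h5.trans ?_
          have h6 : M ≤ (4 * (α.natAbs + β.natAbs) + 1) * diam (T γ₀) := by
            calc M ≤ diam (T γ₀) := (hmem γ₀ hγ₀).2
              _ ≤ (4 * (α.natAbs + β.natAbs) + 1) * diam (T γ₀) :=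
                Nat.le_mul_of_pos_left _ (by omega)
          exact_mod_cast h6)
      rw [← hA] at h2
      rw [hQ]
      exact_mod_cast h2
  -- the scales
  have h2 : ∀ j ∈ range (Nat.log 2 M + 1),
      ((V.filter fun γ => diam (T γ) < M ∧ 2 ^ j ≤ diam (T γ) ∧ diam (T γ) < 2 ^ (j + 1)).card : ℝ)
        ≤ Q * (2 * (d + 1) ^ 2 * ((4 * (A : ℕ) + 1) * μ)) := by
    intro j _
    rcases (V.filter fun γ => diam (T γ) < M ∧ 2 ^ j ≤ diam (T γ) ∧
      diam (T γ) < 2 ^ (j + 1)).eq_empty_or_nonempty with h | h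
    · rw [h, card_empty]
      simp only [Nat.cast_zero]
      positivity
    · obtain ⟨γ₁, hγ₁⟩ := h
      rw [mem_filter] at hγ₁
      have h3 := scale P d hd hP α β (2 ^ j) Nat.one_le_two_pow Γ M (by omega)
        (V.filter fun γ => diam (T γ) < M ∧ 2 ^ j ≤ diam (T γ) ∧ diam (T γ) < 2 ^ (j + 1)) T
        (fun γ hγ => (hV γ (mem_filter.1 hγ).1).1) (fun γ hγ => hT γ (mem_filter.1 hγ).1)
        (fun γ hγ => by
          have h4 := (mem_filter.1 hγ).2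
          have h5 : 2 ^ (j + 1) = 2 * 2 ^ j := by ring
          omega)
      rw [← hA, ← hμ, ← hQ] at h3
      exact h3
  have hsub : V ⊆ (V.filter fun γ => diam (T γ) = 0) ∪ ((V.filter fun γ => M ≤ diam (T γ)) ∪
      (range (Nat.log 2 M + 1)).biUnion fun j =>
        V.filter fun γ => diam (T γ) < M ∧ 2 ^ j ≤ diam (T γ) ∧ diam (T γ) < 2 ^ (j + 1)) := by
    intro γ hγ
    rw [mem_union, mem_union, mem_filter, mem_filter, mem_biUnion]
    by_cases e0 : diam (T γ) = 0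
    · exact Or.inl ⟨hγ, e0⟩
    · by_cases e1 : M ≤ diam (T γ)
      · exact Or.inr (Or.inl ⟨hγ, e1⟩)
      · refine Or.inr (Or.inr ⟨Nat.log 2 (diam (T γ)), ?_, ?_⟩)
        · rw [mem_range]
          have := Nat.log_mono_right (b := 2) (by omega : diam (T γ) ≤ M)
          omega
        · rw [mem_filter]
          exact ⟨hγ, by omega, Nat.pow_log_le_self 2 e0, Nat.lt_pow_succ_log_self (by norm_num) _⟩
  have hcard : (V.card : ℝ) ≤ 2 * ((d : ℝ) + 1) ^ 2 * μ + (Q + (Nat.log 2 M + 1) *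
      (Q * (2 * (d + 1) ^ 2 * ((4 * (A : ℕ) + 1) * μ)))) := by
    have e1 : V.card ≤ (V.filter fun γ => diam (T γ) = 0).card +
        ((V.filter fun γ => M ≤ diam (T γ)).card + ∑ j ∈ range (Nat.log 2 M + 1),
          (V.filter fun γ => diam (T γ) < M ∧ 2 ^ j ≤ diam (T γ) ∧
            diam (T γ) < 2 ^ (j + 1)).card) := by
      refine (card_le_card hsub).trans ((card_union_le _ _).trans ?_)
      apply Nat.add_le_add_left
      refine (card_union_le _ _).trans ?_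
      apply Nat.add_le_add_left
      exact card_biUnion_le
    have e2 : (V.card : ℝ) ≤ ((V.filter fun γ => diam (T γ) = 0).card : ℝ) +
        (((V.filter fun γ => M ≤ diam (T γ)).card : ℝ) + ∑ j ∈ range (Nat.log 2 M + 1),
          ((V.filter fun γ => diam (T γ) < M ∧ 2 ^ j ≤ diam (T γ) ∧
            diam (T γ) < 2 ^ (j + 1)).card : ℝ)) := by exact_mod_cast e1
    refine e2.trans (add_le_add h0 (add_le_add h1 ((sum_le_sum h2).trans (le_of_eq ?_))))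
    rw [sum_const, card_range, nsmul_eq_mul]
    push_cast
    ring
  rw [← hμ]
  refine hcard.trans ?_
  -- the final estimate
  obtain ⟨D, hD⟩ : ∃ D : ℝ, D = (d : ℝ) + 1 := ⟨_, rfl⟩
  obtain ⟨L, hL⟩ : ∃ L : ℝ, L = (Nat.log 2 M : ℝ) := ⟨_, rfl⟩
  obtain ⟨a, ha⟩ : ∃ a : ℝ, a = (A : ℝ) := ⟨_, rfl⟩
  rw [← hD, ← hL, ← ha]
  have hD1 : 1 ≤ D := by
    rw [hD]
    have : (0 : ℝ) ≤ d := Nat.cast_nonneg d
    linarith
  have hL0 : 0 ≤ L := by rw [hL]; exact Nat.cast_nonneg _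
  have ha0 : 0 ≤ a := by rw [ha]; exact Nat.cast_nonneg _
  have hQle : Q ≤ 1728 * D ^ 6 * (a + 1) ^ 3 := by
    have h3 : (qq d A : ℝ) ≤ 12 * D ^ 2 * (a + 1) := by
      rw [hD, ha]
      exact_mod_cast qq_le d A
    calc Q = (qq d A : ℝ) ^ 3 := hQ
      _ ≤ (12 * D ^ 2 * (a + 1)) ^ 3 := pow_le_pow_left₀ (Nat.cast_nonneg _) h3 3
      _ = 1728 * D ^ 6 * (a + 1) ^ 3 := by ring
  obtain ⟨R, hR⟩ : ∃ R : ℝ, R = 1728 * D ^ 6 * (a + 1) ^ 3 := ⟨_, rfl⟩
  rw [← hR] at hQle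
  have hR1 : 1 ≤ R := by
    rw [hR]
    have h3 : (1 : ℝ) ≤ D ^ 6 := one_le_pow₀ hD1
    have h4 : (1 : ℝ) ≤ (a + 1) ^ 3 := one_le_pow₀ (by linarith)
    nlinarith [mul_le_mul h3 h4 zero_le_one (by positivity)]
  have hD2 : (1 : ℝ) ≤ D ^ 2 := one_le_pow₀ hD1
  have hfin : 13824 * D ^ 8 * (a + 1) ^ 4 * (1 + L) * μ = D ^ 2 * R * (8 * (a + 1)) * (1 + L) * μ := by
    rw [hR]
    ring
  rw [hfin]
  have k0 : 2 * D ^ 2 * μ ≤ D ^ 2 * R * 2 * (1 + L) * μ := by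
    have : 2 * D ^ 2 * μ * 1 ≤ 2 * D ^ 2 * μ * (R * (1 + L)) := by
      apply mul_le_mul_of_nonneg_left _ (by positivity)
      nlinarith
    calc 2 * D ^ 2 * μ = 2 * D ^ 2 * μ * 1 := by ring
      _ ≤ 2 * D ^ 2 * μ * (R * (1 + L)) := this
      _ = D ^ 2 * R * 2 * (1 + L) * μ := by ring
  have k1 : Q ≤ D ^ 2 * R * 1 * (1 + L) * μ := by
    have e1 : (1 : ℝ) ≤ D ^ 2 * ((1 + L) * μ) := by
      have : (1 : ℝ) ≤ (1 + L) * μ := by nlinarith
      nlinarith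
    calc Q ≤ R := hQle
      _ = R * 1 := by ring
      _ ≤ R * (D ^ 2 * ((1 + L) * μ)) := mul_le_mul_of_nonneg_left e1 (by linarith)
      _ = D ^ 2 * R * 1 * (1 + L) * μ := by ring
  have k2 : (L + 1) * (Q * (2 * D ^ 2 * ((4 * a + 1) * μ))) ≤
      D ^ 2 * R * (2 * (4 * a + 1)) * (1 + L) * μ := by
    calc (L + 1) * (Q * (2 * D ^ 2 * ((4 * a + 1) * μ)))
        = Q * ((L + 1) * (2 * D ^ 2 * ((4 * a + 1) * μ))) := by ring
      _ ≤ R * ((L + 1) * (2 * D ^ 2 * ((4 * a + 1) * μ))) :=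
          mul_le_mul_of_nonneg_right hQle (by positivity)
      _ = D ^ 2 * R * (2 * (4 * a + 1)) * (1 + L) * μ := by ring
  have k3 : D ^ 2 * R * 2 * (1 + L) * μ + (D ^ 2 * R * 1 * (1 + L) * μ +
      D ^ 2 * R * (2 * (4 * a + 1)) * (1 + L) * μ) = D ^ 2 * R * (8 * a + 5) * (1 + L) * μ := by ring
  have k4 : D ^ 2 * R * (8 * a + 5) * (1 + L) * μ ≤ D ^ 2 * R * (8 * (a + 1)) * (1 + L) * μ := by
    have : D ^ 2 * R * (8 * a + 5) ≤ D ^ 2 * R * (8 * (a + 1)) :=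
      mul_le_mul_of_nonneg_left (by linarith) (by positivity)
    exact mul_le_mul_of_nonneg_right (mul_le_mul_of_nonneg_right this (by linarith)) (by linarith)
  linarith [add_le_add k0 (add_le_add k1 k2)]

end Pool.Agent.J4H48.HL
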