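import Pool.Agent.J4H48.SI.Val

/-!
Few integers at which a polynomial is small compared with their diameter.
-/

set_option autoImplicit false

open Finset

namespace Pool.Agent.J4H48.HL

/-- if `|G + γ₀| ≤ B λ` on a set of integers of diameter at least `λ`, then the set has at most
`d (2 (d + 1) B + 1)` elements -/
theorem few_near (G : Polynomial ℤ) (d : ℕ) (hd : 2 ≤ d) (hG : G.natDegree = d) (γ₀ : ℤ)
    (lam B : ℕ) (hlam : 1 ≤ lam) (U : Finset ℤ) (hU : ∀ t ∈ U, |G.eval t + γ₀| ≤ (B * lam : ℕ))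
    (hfar : ∃ s ∈ U, ∃ t ∈ U, s + lam ≤ t) : U.card ≤ d * (2 * (d + 1) * B + 1) := by
  classical
  by_contra hcon
  push Not at hcon
  obtain ⟨ρ, hρ⟩ : ∃ ρ, ρ = 2 * (d + 1) * B + 1 := ⟨_, rfl⟩
  rw [← hρ] at hcon
  have hρ1 : 1 ≤ ρ := by omega
  let f := U.orderEmbOfFin rfl
  obtain ⟨N, hN⟩ : ∃ N, N = U.card := ⟨_, rfl⟩
  let g : ℕ → ℕ := fun i => if i < d then i * ρ else U.card - 1
  have hdρ : (d - 1) * ρ + ρ = d * ρ := by
    have : d = (d - 1) + 1 := by omega
    conv_rhs => rw [this]
    ring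
  have hglt : ∀ i ≤ d, g i < U.card := by
    intro i hi
    show (if i < d then i * ρ else U.card - 1) < _
    split_ifs with h
    · have : i * ρ ≤ d * ρ := Nat.mul_le_mul_right ρ h.le
      omega
    · omega
  have hgsep : ∀ i j, i < j → j ≤ d → g i + ρ ≤ g j := by
    intro i j hij hj
    show (if i < d then i * ρ else U.card - 1) + ρ ≤ (if j < d then j * ρ else U.card - 1)
    rw [if_pos (by omega : i < d)]
    split_ifs with h
    · calc i * ρ + ρ = (i + 1) * ρ := by ring
        _ ≤ j * ρ := Nat.mul_le_mul_right ρ hij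
    · have h1 : i * ρ ≤ (d - 1) * ρ := Nat.mul_le_mul_right ρ (by omega)
      omega
  let w : ℕ → ℤ := fun i => if h : g i < U.card then f ⟨g i, h⟩ else 0
  have hw : ∀ i (hi : i ≤ d), w i = f ⟨g i, hglt i hi⟩ := fun i hi => dif_pos (hglt i hi)
  have hwA : ∀ i ≤ d, w i ∈ U := by
    intro i hi
    rw [hw i hi]
    exact orderEmbOfFin_mem U rfl _
  have hgap : ∀ i j, i < j → j ≤ d → w i + ρ ≤ w j := by
    intro i j hij hj
    rw [hw i (by omega), hw j hj]
    have h1 := hgsep i j hij hj
    have h2 := Pool.Agent.J4H48.SI.gap (fun x => f x) f.strictMono (g j - g i) (g i) (by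
      have := hglt j hj
      omega)
    have h3 : (⟨g i + (g j - g i), by have := hglt j hj; omega⟩ : Fin U.card) =
        ⟨g j, hglt j hj⟩ := Fin.ext (by simp only; omega)
    rw [h3] at h2
    have h4 : ((g j - g i : ℕ) : ℤ) ≥ ρ := by
      have : ρ ≤ g j - g i := by omega
      exact_mod_cast this
    linarith
  have hends : w 0 + lam ≤ w d := by
    obtain ⟨s, hs, t, ht, hst⟩ := hfar
    have h0 : w 0 ≤ s := by
      rw [hw 0 (by omega)]
      obtain ⟨i, hi⟩ : s ∈ Set.range (U.orderEmbOfFin rfl) := by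
        rw [Finset.range_orderEmbOfFin]
        exact hs
      rw [← hi]
      apply f.monotone
      show (⟨g 0, _⟩ : Fin U.card) ≤ i
      rw [Fin.le_def]
      show g 0 ≤ _
      have : g 0 = 0 := by
        show (if 0 < d then 0 * ρ else U.card - 1) = 0
        rw [if_pos (by omega), zero_mul]
      omega
    have h1 : t ≤ w d := by
      rw [hw d le_rfl]
      obtain ⟨i, hi⟩ : t ∈ Set.range (U.orderEmbOfFin rfl) := by
        rw [Finset.range_orderEmbOfFin]
        exact ht
      rw [← hi]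
      apply f.monotone
      rw [Fin.le_def]
      show (i : ℕ) ≤ g d
      have : g d = U.card - 1 := by
        show (if d < d then d * ρ else U.card - 1) = _
        rw [if_neg (by omega)]
      have := i.2
      omega
    linarith
  let v : ℕ → ℝ := fun i => (w i : ℝ)
  have hvd : ∀ i ∈ range (d + 1), ∀ j ∈ range (d + 1), i ≠ j → (ρ : ℝ) ≤ |v i - v j| := by
    intro i hi j hj hij
    rw [mem_range] at hi hj
    rcases lt_or_gt_of_ne hij with h | h
    · have h1 := hgap i j h (by omega)
      have h2 : (v i : ℝ) + ρ ≤ v j := by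
        show ((w i : ℤ) : ℝ) + ρ ≤ ((w j : ℤ) : ℝ)
        exact_mod_cast h1
      rw [abs_sub_comm]
      exact le_trans (by linarith) (le_abs_self _)
    · have h1 := hgap j i h (by omega)
      have h2 : (v j : ℝ) + ρ ≤ v i := by
        show ((w j : ℤ) : ℝ) + ρ ≤ ((w i : ℤ) : ℝ)
        exact_mod_cast h1
      exact le_trans (by linarith) (le_abs_self _)
  have hρ0 : (1 : ℝ) ≤ ρ := by exact_mod_cast hρ1
  have hlam0 : (1 : ℝ) ≤ lam := by exact_mod_cast hlam
  have hinj : Set.InjOn v (range (d + 1)) := by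
    intro i hi j hj hij
    by_contra hne
    have := hvd i hi j hj hne
    rw [hij, sub_self, abs_zero] at this
    linarith
  have hfar' : ∀ i ∈ range (d + 1), ∃ j ∈ (range (d + 1)).erase i, (lam : ℝ) / 2 ≤ |v i - v j| := by
    intro i hi
    have he : (v 0 : ℝ) + lam ≤ v d := by
      show ((w 0 : ℤ) : ℝ) + lam ≤ ((w d : ℤ) : ℝ)
      exact_mod_cast hends
    rw [mem_range] at hi
    by_cases h0 : (lam : ℝ) / 2 ≤ |v i - v 0|
    · refine ⟨0, mem_erase.2 ⟨?_, mem_range.2 (by omega)⟩, h0⟩
      rintro rfl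
      rw [sub_self, abs_zero] at h0
      linarith
    · push Not at h0
      have h2 : (lam : ℝ) / 2 ≤ |v i - v d| := by
        have h3 := (abs_lt.1 h0).2
        rw [abs_sub_comm]
        exact le_trans (by linarith) (le_abs_self _)
      refine ⟨d, mem_erase.2 ⟨?_, mem_range.2 (by omega)⟩, h2⟩
      rintro rfl
      rw [sub_self, abs_zero] at h2
      linarith
  let P : Polynomial ℝ := G.map (Int.castRingHom ℝ) + Polynomial.C (γ₀ : ℝ)
  have hPdeg : P.degree < #(range (d + 1)) := by
    rw [card_range]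
    refine lt_of_le_of_lt (Polynomial.degree_add_le _ _) (max_lt ?_ ?_)
    · refine lt_of_le_of_lt Polynomial.degree_map_le ?_
      refine lt_of_le_of_lt Polynomial.degree_le_natDegree ?_
      rw [hG]
      exact_mod_cast Nat.lt_succ_self d
    · refine lt_of_le_of_lt Polynomial.degree_C_le ?_
      exact_mod_cast Nat.succ_pos d
  have hsum := Lagrange.coeff_eq_sum hinj hPdeg
  rw [card_range, Nat.add_sub_cancel] at hsum
  have hco : P.coeff d = (G.leadingCoeff : ℝ) := by
    show (G.map (Int.castRingHom ℝ) + Polynomial.C (γ₀ : ℝ)).coeff d = _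
    rw [Polynomial.coeff_add, Polynomial.coeff_map, Polynomial.coeff_C, if_neg (by omega), add_zero,
      ← hG]
    rfl
  have hlc : (1 : ℝ) ≤ |(G.leadingCoeff : ℝ)| := by
    have h1 : G.leadingCoeff ≠ 0 := by
      intro h
      rw [Polynomial.leadingCoeff_eq_zero] at h
      rw [h, Polynomial.natDegree_zero] at hG
      omega
    have h2 : 1 ≤ |G.leadingCoeff| := Int.one_le_abs h1
    exact_mod_cast h2
  have hbound : |P.coeff d| ≤ (d + 1) * ((B * lam) / (lam / 2 * ρ ^ (d - 1))) := by
    rw [hsum]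
    refine (abs_sum_le_sum_abs _ _).trans ?_
    have hterm : ∀ i ∈ range (d + 1),
        |P.eval (v i) / ∏ j ∈ (range (d + 1)).erase i, (v i - v j)|
          ≤ (B * lam) / (lam / 2 * ρ ^ (d - 1)) := by
      intro i hi
      have h1 : |P.eval (v i)| ≤ B * lam := by
        have e : P.eval (v i) = ((G.eval (w i) + γ₀ : ℤ) : ℝ) := by
          show (G.map (Int.castRingHom ℝ) + Polynomial.C (γ₀ : ℝ)).eval ((w i : ℤ) : ℝ) = _
          rw [Polynomial.eval_add, Polynomial.eval_C, Polynomial.eval_intCast_map]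
          push_cast
          rfl
        have h2 := hU (w i) (hwA i (by rw [mem_range] at hi; omega))
        rw [e]
        have h3 : ((|G.eval (w i) + γ₀| : ℤ) : ℝ) ≤ (((B * lam : ℕ) : ℤ) : ℝ) := by exact_mod_cast h2
        rw [Int.cast_abs] at h3
        refine h3.trans (le_of_eq ?_)
        push_cast
        ring
      have h2 : (lam : ℝ) / 2 * ρ ^ (d - 1) ≤ |∏ j ∈ (range (d + 1)).erase i, (v i - v j)| := by
        obtain ⟨j0, hj0, hj0f⟩ := hfar' i hi
        rw [abs_prod, ← mul_prod_erase _ _ hj0]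
        apply mul_le_mul hj0f _ (by positivity) (abs_nonneg _)
        have e : (ρ : ℝ) ^ (d - 1) = ∏ _j ∈ ((range (d + 1)).erase i).erase j0, (ρ : ℝ) := by
          rw [prod_const, card_erase_of_mem hj0, card_erase_of_mem hi, card_range]
          congr 1
        rw [e]
        apply prod_le_prod
        · intro j _
          linarith
        · intro j hj
          rw [mem_erase, mem_erase] at hj
          exact hvd i hi j hj.2.2 hj.2.1.symm
      rw [abs_div]
      have h3 : (0 : ℝ) < lam / 2 * ρ ^ (d - 1) := by positivity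
      exact div_le_div₀ (by positivity) h1 h3 h2
    refine (sum_le_sum hterm).trans (le_of_eq ?_)
    rw [sum_const, card_range, nsmul_eq_mul]
    push_cast
    ring
  rw [hco] at hbound
  have h5 : (1 : ℝ) ≤ (d + 1) * ((B * lam) / (lam / 2 * ρ ^ (d - 1))) := hlc.trans hbound
  have h6 : ((d : ℝ) + 1) * ((B * lam) / (lam / 2 * ρ ^ (d - 1))) = 2 * (d + 1) * B / ρ ^ (d - 1) := by
    field_simp
  rw [h6] at h5
  have h7 : (0 : ℝ) < (ρ : ℝ) ^ (d - 1) := by positivity
  rw [le_div_iff₀ h7, one_mul] at h5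
  have h8 : ρ ^ (d - 1) ≤ 2 * (d + 1) * B := by exact_mod_cast h5
  have h9 : ρ ≤ ρ ^ (d - 1) := Nat.le_self_pow (by omega) ρ
  omega

end Pool.Agent.J4H48.HL
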