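import Pool.Agent.J4H48.HL.Core

/-!
Rational periodic points of generalized Hénon maps `(x, y) ↦ (y, (F(y) + c - e x) / b)`: reduction to
periodic sequences of integers, and the number of the `c` in an interval.
-/

set_option autoImplicit false

open Finset

namespace Pool.Agent.J4H48.HL

/-- the generalized Hénon map `(x, y) ↦ (y, (F(y) + c - e x) / b)` of `ℚ²` -/
noncomputable def henon (F : Polynomial ℤ) (b e c : ℤ) (P : ℚ × ℚ) : ℚ × ℚ :=
  (P.2, (Polynomial.aeval P.2 F + c - e * P.1) / b)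

/-- it has a rational periodic point -/
def HasPeriodic (F : Polynomial ℤ) (b e c : ℤ) : Prop :=
  ∃ (P : ℚ × ℚ) (n : ℕ), 1 ≤ n ∧ (henon F b e c)^[n] P = P

theorem int_of_padicNorm (q : ℚ) (h : ∀ p : ℕ, p.Prime → padicNorm p q ≤ 1) : ∃ t : ℤ, q = t := by
  by_cases hd : q.den = 1
  · exact ⟨q.num, (Rat.den_eq_one_iff q).1 hd |>.symm⟩
  · exfalso
    obtain ⟨p, hp, hpd⟩ := Nat.exists_prime_and_dvd hd
    have : Fact p.Prime := ⟨hp⟩
    have h1 := h p hp
    have h2 : padicNorm p (q.den : ℚ) < 1 := (padicNorm.nat_lt_one_iff q.den).2 hpd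
    have h3 : padicNorm p (q.num : ℚ) = 1 := by
      rw [padicNorm.int_eq_one_iff]
      intro h4
      have h5 : p ∣ q.num.natAbs := Int.natCast_dvd.1 h4
      have h6 := Nat.dvd_gcd h5 hpd
      rw [q.reduced] at h6
      exact hp.one_lt.ne' (Nat.dvd_one.1 h6)
    have h4 : q * q.den = q.num := Rat.mul_den_eq_num q
    have h5 : padicNorm p q * padicNorm p (q.den : ℚ) = 1 := by
      rw [← padicNorm.mul, h4, h3]
    have h6 : 0 ≤ padicNorm p (q.den : ℚ) := padicNorm.nonneg _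
    nlinarith

/-- periodic rational solutions of a monic recursion are integral -/
theorem integral (P : Polynomial ℤ) (hm : P.Monic) (hd : 2 ≤ P.natDegree) (α β γ : ℤ) (w : ℕ → ℚ)
    (N : ℕ) (hN : 1 ≤ N) (hper : ∀ k, w (k + N) = w k)
    (hrec : ∀ k, α * w (k + 2) + β * w k = Polynomial.aeval (w (k + 1)) P + γ) :
    ∀ k, ∃ t : ℤ, w k = t := by
  intro k
  apply int_of_padicNorm
  intro p hp
  have : Fact p.Prime := ⟨hp⟩
  by_contra hcon
  push Not at hcon
  obtain ⟨j, -, hj⟩ := (range N).exists_max_image (fun i => padicNorm p (w i))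
    ⟨0, mem_range.2 (by omega)⟩
  obtain ⟨M, hM⟩ : ∃ M, M = padicNorm p (w j) := ⟨_, rfl⟩
  have hmax : ∀ i, padicNorm p (w i) ≤ M := by
    intro i
    have h1 : w (i % N) = w i := Function.Periodic.map_mod_nat (f := w) (a := N) hper i
    rw [← h1, hM]
    exact hj _ (mem_range.2 (Nat.mod_lt _ (by omega)))
  have hM1 : 1 < M := lt_of_lt_of_le hcon (hmax k)
  obtain ⟨l, hl⟩ : ∃ l, l + 1 = j + N := ⟨j + N - 1, by omega⟩
  have hz : padicNorm p (w (l + 1)) = M := by rw [hl, hper, ← hM]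
  have h1 := hrec l
  obtain ⟨d, hdd⟩ : ∃ d, d = P.natDegree := ⟨_, rfl⟩
  have hsum : Polynomial.aeval (w (l + 1)) P =
      (∑ i ∈ range d, (P.coeff i : ℚ) * w (l + 1) ^ i) + w (l + 1) ^ d := by
    rw [Polynomial.aeval_eq_sum_range, sum_range_succ, ← hdd]
    have e1 : P.coeff d • w (l + 1) ^ d = w (l + 1) ^ d := by
      rw [hdd, Polynomial.coeff_natDegree, hm.leadingCoeff, one_smul]
    rw [e1]
    congr 1
  rw [hsum] at h1
  have h2 : w (l + 1) ^ d = (α * w (l + 2) + β * w l) -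
      ((∑ i ∈ range d, (P.coeff i : ℚ) * w (l + 1) ^ i) + γ) := by
    linear_combination -h1
  have hpow : ∀ (x : ℚ) (n : ℕ), padicNorm p (x ^ n) = padicNorm p x ^ n := by
    intro x n
    induction n with
    | zero => simp
    | succ n ih => rw [pow_succ, padicNorm.mul, ih, pow_succ]
  have hge : ∀ i ≤ d - 1, M ^ i ≤ M ^ (d - 1) := fun i hi => pow_le_pow_right₀ hM1.le hi
  have hM2 : M ≤ M ^ (d - 1) := by
    have := hge 1 (by omega)
    rwa [pow_one] at this
  have hone : 1 ≤ M ^ (d - 1) := one_le_pow₀ hM1.le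
  have hmul : ∀ (x : ℤ) (y : ℚ), padicNorm p (x * y) ≤ padicNorm p y := by
    intro x y
    rw [padicNorm.mul]
    calc padicNorm p x * padicNorm p y ≤ 1 * padicNorm p y :=
          mul_le_mul_of_nonneg_right (padicNorm.of_int x) (padicNorm.nonneg _)
      _ = padicNorm p y := one_mul _
  have k1 : padicNorm p (α * w (l + 2) + β * w l) ≤ M ^ (d - 1) := by
    refine padicNorm.nonarchimedean.trans (max_le ?_ ?_)
    · exact (hmul _ _).trans ((hmax _).trans hM2)
    · exact (hmul _ _).trans ((hmax _).trans hM2)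
  have k2 : padicNorm p (∑ i ∈ range d, (P.coeff i : ℚ) * w (l + 1) ^ i) ≤ M ^ (d - 1) := by
    apply padicNorm.sum_le' _ (by linarith)
    intro i hi
    rw [mem_range] at hi
    refine (hmul _ _).trans ?_
    rw [hpow, hz]
    exact hge i (by omega)
  have k3 : padicNorm p ((∑ i ∈ range d, (P.coeff i : ℚ) * w (l + 1) ^ i) + γ) ≤ M ^ (d - 1) :=
    padicNorm.nonarchimedean.trans (max_le k2 ((padicNorm.of_int γ).trans hone))
  have k4 : M ^ d ≤ M ^ (d - 1) := by
    rw [← hz, ← hpow, hz, h2]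
    exact padicNorm.sub.trans (max_le k1 k3)
  have k5 : M ^ (d - 1) < M ^ d := pow_lt_pow_right₀ hM1 (by omega)
  linarith

/-- a rational periodic point gives an invariant set of integers -/
theorem inv_of_periodic (F : Polynomial ℤ) (d : ℕ) (hd : 2 ≤ d) (hF : F.natDegree = d) (b e c : ℤ)
    (hb : b ≠ 0) (h : HasPeriodic F b e c) :
    ∃ S, Inv F.integralNormalization (F.leadingCoeff ^ (d - 2) * b) (F.leadingCoeff ^ (d - 2) * e)
      (F.leadingCoeff ^ (d - 1) * c) S := by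
  classical
  obtain ⟨P₀, n, hn, hper⟩ := h
  have hF0 : F ≠ 0 := by
    rintro rfl
    rw [Polynomial.natDegree_zero] at hF
    omega
  have hbQ : (b : ℚ) ≠ 0 := by exact_mod_cast hb
  obtain ⟨a, ha⟩ : ∃ a, a = F.leadingCoeff := ⟨_, rfl⟩
  obtain ⟨z, hz⟩ : ∃ z : ℕ → ℚ, z = fun k => ((henon F b e c)^[k] P₀).1 := ⟨_, rfl⟩
  have hz1 : ∀ k, z (k + 1) = ((henon F b e c)^[k] P₀).2 := by
    intro k
    rw [hz]
    show ((henon F b e c)^[k + 1] P₀).1 = _
    rw [Function.iterate_succ_apply']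
    rfl
  have hz2 : ∀ k, (b : ℚ) * z (k + 2) + e * z k = Polynomial.aeval (z (k + 1)) F + c := by
    intro k
    have h1 : z (k + 2) = (Polynomial.aeval (z (k + 1)) F + c - e * z k) / b := by
      have h2 : z (k + 2) = ((henon F b e c)^[k + 1] P₀).2 := hz1 (k + 1)
      rw [h2, Function.iterate_succ_apply', hz1 k, hz]
      rfl
    rw [h1]
    field_simp
    ring
  have hzn : ∀ k, z (k + n) = z k := by
    intro k
    rw [hz]
    show ((henon F b e c)^[k + n] P₀).1 = ((henon F b e c)^[k] P₀).1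
    rw [Function.iterate_add_apply, hper]
  obtain ⟨w, hw⟩ : ∃ w : ℕ → ℚ, w = fun k => (a : ℚ) * z k := ⟨_, rfl⟩
  have hwn : ∀ k, w (k + n) = w k := fun k => by
    rw [hw]
    show (a : ℚ) * z (k + n) = a * z k
    rw [hzn]
  have hrec : ∀ k, ((a ^ (d - 2) * b : ℤ) : ℚ) * w (k + 2) + ((a ^ (d - 2) * e : ℤ) : ℚ) * w k =
      Polynomial.aeval (w (k + 1)) F.integralNormalization + ((a ^ (d - 1) * c : ℤ) : ℚ) := by
    intro k
    have h1 := Polynomial.integralNormalization_eval₂_leadingCoeff_mul (p := F) (by omega)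
      (algebraMap ℤ ℚ) (z (k + 1))
    rw [hF, ← ha] at h1
    have h2 : Polynomial.aeval (w (k + 1)) F.integralNormalization =
        (a : ℚ) ^ (d - 1) * Polynomial.aeval (z (k + 1)) F := by
      rw [Polynomial.aeval_def, Polynomial.aeval_def, hw]
      exact h1
    rw [h2, hw]
    push_cast
    have h3 : (a : ℚ) ^ (d - 1) = (a : ℚ) ^ (d - 2) * a := by
      rw [← pow_succ]
      congr 1
      omega
    rw [h3]
    linear_combination (a : ℚ) ^ (d - 2) * a * hz2 k
  have hdegn : F.integralNormalization.natDegree = d := by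
    rw [Polynomial.natDegree_eq_of_degree_eq F.degree_integralNormalization, hF]
  have hint := integral F.integralNormalization (Polynomial.monic_integralNormalization hF0)
    (by rw [hdegn]; exact hd) _ _ _ w n hn hwn hrec
  choose t ht using hint
  have htn : ∀ k, t (k + n) = t k := fun k => by
    have h1 : ((t (k + n) : ℤ) : ℚ) = t k := by rw [← ht, ← ht, hwn]
    exact_mod_cast h1
  have hmem : ∀ k, t k ∈ (range n).image t := by
    intro k
    have h1 : t (k % n) = t k := Function.Periodic.map_mod_nat (f := t) (a := n) htn k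
    rw [← h1]
    exact mem_image_of_mem t (mem_range.2 (Nat.mod_lt _ (by omega)))
  refine ⟨(range n).image t, ⟨t 0, hmem 0⟩, ?_⟩
  intro s hs
  rw [mem_image] at hs
  obtain ⟨j, -, rfl⟩ := hs
  obtain ⟨l, hl⟩ : ∃ l, l + 1 = j + n := ⟨j + n - 1, by omega⟩
  refine ⟨t (l + 2), hmem _, t l, hmem _, ?_⟩
  have h1 := hrec l
  rw [ht (l + 2), ht l, ht (l + 1), hl, htn] at h1
  have h2 : Polynomial.aeval ((t j : ℤ) : ℚ) F.integralNormalization =
      ((F.integralNormalization.eval (t j) : ℤ) : ℚ) := by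
    rw [Polynomial.aeval_def, Polynomial.eval₂_eq_eval_map]
    exact Polynomial.eval_intCast_map _ _ _
  rw [h2] at h1
  rw [← ha]
  exact_mod_cast h1

/-- the bound -/
noncomputable def bnd (F : Polynomial ℤ) (b e : ℤ) (m : ℕ) : ℝ :=
  13824 * ((F.natDegree : ℝ) + 1) ^ 8 *
    ((F.leadingCoeff.natAbs ^ (F.natDegree - 2) * (b.natAbs + e.natAbs) : ℕ) + 1) ^ 4 *
    (1 + Nat.log 2 (F.leadingCoeff.natAbs ^ (F.natDegree - 1) * m)) *
    ((F.leadingCoeff.natAbs ^ (F.natDegree - 1) * m : ℕ) : ℝ) ^ (1 / (F.natDegree : ℝ))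

/-- the number of the constants in an interval -/
theorem count (F : Polynomial ℤ) (hd : 2 ≤ F.natDegree) (b e : ℤ) (hb : b ≠ 0) (C : ℤ) (m : ℕ)
    (hm : 1 ≤ m) (V : Finset ℤ) (hV : ∀ c ∈ V, (C ≤ c ∧ c < C + m) ∧ HasPeriodic F b e c) :
    (V.card : ℝ) ≤ bnd F b e m := by
  classical
  obtain ⟨d, hdd⟩ : ∃ d, d = F.natDegree := ⟨_, rfl⟩
  unfold bnd
  rw [← hdd] at hd ⊢
  have hF0 : F ≠ 0 := by
    rintro rfl
    rw [Polynomial.natDegree_zero] at hdd
    omega
  obtain ⟨a, ha⟩ : ∃ a, a = F.leadingCoeff := ⟨_, rfl⟩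
  have ha0 : a ≠ 0 := by
    rw [ha]
    exact Polynomial.leadingCoeff_ne_zero.2 hF0
  rw [← ha]
  have hdegn : F.integralNormalization.natDegree = d := by
    rw [Polynomial.natDegree_eq_of_degree_eq F.degree_integralNormalization, ← hdd]
  obtain ⟨x, hx⟩ : ∃ x, x = a ^ (d - 1) := ⟨_, rfl⟩
  have hx0 : x ≠ 0 := by rw [hx]; exact pow_ne_zero _ ha0
  have hxabs : x.natAbs = a.natAbs ^ (d - 1) := by rw [hx, Int.natAbs_pow]
  have hx1 : 1 ≤ x.natAbs := Nat.one_le_iff_ne_zero.2 (Int.natAbs_ne_zero.2 hx0)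
  have hinj : Function.Injective fun c : ℤ => x * c := mul_right_injective₀ hx0
  obtain ⟨Γ, hΓ⟩ : ∃ Γ : ℤ, ∀ c ∈ V, Γ ≤ x * c ∧ x * c < Γ + (x.natAbs * m : ℕ) := by
    rcases lt_or_gt_of_ne hx0 with h | h
    · refine ⟨x * (C + m) + 1, fun c hc => ?_⟩
      have h1 := (hV c hc).1
      have h2 : (x.natAbs : ℤ) = -x := Int.ofNat_natAbs_of_nonpos h.le
      have h3 : x * (C + m - 1) ≤ x * c := mul_le_mul_of_nonpos_left (by linarith [h1.2]) h.le
      have h4 : x * c ≤ x * C := mul_le_mul_of_nonpos_left h1.1 h.le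
      rw [Nat.cast_mul, h2]
      constructor
      · nlinarith
      · nlinarith
    · refine ⟨x * C, fun c hc => ?_⟩
      have h1 := (hV c hc).1
      have h2 : (x.natAbs : ℤ) = x := Int.natAbs_of_nonneg h.le
      have h3 : x * C ≤ x * c := mul_le_mul_of_nonneg_left h1.1 h.le
      have h4 : x * c < x * (C + m) := mul_lt_mul_of_pos_left h1.2 h
      rw [Nat.cast_mul, h2]
      constructor
      · exact h3
      · nlinarith
  have h1 := core F.integralNormalization d hd hdegn (a ^ (d - 2) * b) (a ^ (d - 2) * e) Γ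
    (x.natAbs * m) (Nat.one_le_iff_ne_zero.2 (by positivity)) (V.image fun c => x * c) (by
      intro γ hγ
      rw [mem_image] at hγ
      obtain ⟨c, hc, rfl⟩ := hγ
      refine ⟨hΓ c hc, ?_⟩
      have h2 := inv_of_periodic F d hd hdd.symm b e c hb (hV c hc).2
      rw [← ha, ← hx] at h2
      exact h2)
  rw [card_image_of_injective _ hinj] at h1
  have h2 : (a ^ (d - 2) * b).natAbs + (a ^ (d - 2) * e).natAbs =
      a.natAbs ^ (d - 2) * (b.natAbs + e.natAbs) := by
    rw [Int.natAbs_mul, Int.natAbs_mul, Int.natAbs_pow]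
    ring
  rw [h2, hxabs] at h1
  exact h1

end Pool.Agent.J4H48.HL
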